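import Mathlib

namespace Pool.Agent.Results.MP_a9ea17_co.AllLengths

open Finset

/-- The assertion of Q1 for `k`, with `t = 4k+1`: there are nonzero residues `x_0, …, x_{k-1}`
modulo `t` (the values `x i`, `i < k`) such that the nonzero residues are exactly the
`±x_i, ±(x_i + x_{i+1})` (indices modulo `k`) and `∑ x_i` is coprime to `t`. -/
def HasSequence (k : ℕ) : Prop :=
  ∃ x : ℕ → ZMod (4 * k + 1),
    (∀ i < k, x i ≠ 0) ∧
    (∀ z : ZMod (4 * k + 1), z ≠ 0 ↔ ∃ i < k, z = x i ∨ z = -x i ∨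
      z = x i + x ((i + 1) % k) ∨ z = -(x i + x ((i + 1) % k))) ∧
    Nat.gcd (∑ i ∈ range k, x i).val (4 * k + 1) = 1

theorem main (k : ℕ) (X : ℕ → ℤ)
    (hcov : ∀ r : ℤ, 1 ≤ r → r ≤ 2 * k → ∃ i < k, ∃ y : ℤ,
      (y = X i ∨ y = X i + X ((i + 1) % k)) ∧
        ((4 * k + 1 : ℤ) ∣ y - r ∨ (4 * k + 1 : ℤ) ∣ y + r))
    (c q : ℤ) (hs : c * ∑ i ∈ range k, X i = q * (4 * k + 1) - 1) : HasSequence k := by
  classical
  have hcast : ∀ y : ℤ, (4 * k + 1 : ℤ) ∣ y ↔ ((y : ℤ) : ZMod (4 * k + 1)) = 0 := by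
    intro y
    rw [ZMod.intCast_zmod_eq_zero_iff_dvd]
    push_cast
    exact Iff.rfl
  let x : ℕ → ZMod (4 * k + 1) := fun i => ((X i : ℤ) : ZMod (4 * k + 1))
  -- coverage
  have cov : ∀ z : ZMod (4 * k + 1), z ≠ 0 → ∃ i < k, z = x i ∨ z = -x i ∨
      z = x i + x ((i + 1) % k) ∨ z = -(x i + x ((i + 1) % k)) := by
    intro z hz
    have hv : z.val ≠ 0 := by
      intro h
      exact hz ((ZMod.val_eq_zero z).1 h)
    have hlt : z.val < 4 * k + 1 := ZMod.val_lt z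
    have hzv : ((z.val : ℕ) : ZMod (4 * k + 1)) = z := ZMod.natCast_zmod_val z
    obtain ⟨r, h1, h2, hr⟩ : ∃ r : ℤ, 1 ≤ r ∧ r ≤ 2 * k ∧
        (z = ((r : ℤ) : ZMod (4 * k + 1)) ∨ z = -((r : ℤ) : ZMod (4 * k + 1))) := by
      rcases Nat.lt_or_ge (2 * k) z.val with h | h
      · refine ⟨4 * k + 1 - z.val, by omega, by omega, Or.inr ?_⟩
        have : ((4 * k + 1 : ℕ) : ZMod (4 * k + 1)) = 0 := ZMod.natCast_self _
        push_cast at this ⊢
        rw [this, hzv]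
        ring
      · refine ⟨z.val, by omega, by omega, Or.inl ?_⟩
        push_cast
        exact hzv.symm
    obtain ⟨i, hi, y, hy, hd⟩ := hcov r h1 h2
    refine ⟨i, hi, ?_⟩
    have hyr : ((y : ℤ) : ZMod (4 * k + 1)) = r ∨ ((y : ℤ) : ZMod (4 * k + 1)) = -r := by
      rcases hd with hd | hd
      · left
        have := (hcast _).1 hd
        push_cast at this
        exact sub_eq_zero.1 this
      · right
        have := (hcast _).1 hd
        push_cast at this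
        exact eq_neg_of_add_eq_zero_left this
    have hzy : z = ((y : ℤ) : ZMod (4 * k + 1)) ∨ z = -((y : ℤ) : ZMod (4 * k + 1)) := by
      rcases hr with hr | hr <;> rcases hyr with h | h <;> rw [hr, h] <;> simp
    rcases hy with rfl | rfl
    · rcases hzy with h | h
      · exact Or.inl h
      · exact Or.inr (Or.inl h)
    · rcases hzy with h | h
      · exact Or.inr (Or.inr (Or.inl (by rw [h]; simp [x])))
      · exact Or.inr (Or.inr (Or.inr (by rw [h]; simp [x])))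
  -- the covering residues as the image of a set with `4k` elements
  let f : Fin k × Fin 4 → ZMod (4 * k + 1) := fun p =>
    if p.2 = 0 then x p.1 else if p.2 = 1 then -x p.1 else
      if p.2 = 2 then x p.1 + x ((p.1 + 1) % k) else -(x p.1 + x ((p.1 + 1) % k))
  have hf : ∀ p, f p ≠ 0 := by
    intro p hp
    have hsurj : (univ : Finset (ZMod (4 * k + 1))) ⊆ univ.image f := by
      intro z _
      rw [mem_image]
      by_cases hz : z = 0
      · exact ⟨p, mem_univ _, by rw [hp, hz]⟩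
      · obtain ⟨i, hi, h⟩ := cov z hz
        rcases h with h | h | h | h
        · exact ⟨(⟨i, hi⟩, 0), mem_univ _, by simp [f, h]⟩
        · exact ⟨(⟨i, hi⟩, 1), mem_univ _, by simp [f, h]⟩
        · exact ⟨(⟨i, hi⟩, 2), mem_univ _, by simp [f, h]⟩
        · exact ⟨(⟨i, hi⟩, 3), mem_univ _, by simp [f, h]⟩
    have h1 := (card_le_card hsurj).trans card_image_le
    rw [card_univ, card_univ, ZMod.card, Fintype.card_prod, Fintype.card_fin,
      Fintype.card_fin] at h1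
    omega
  refine ⟨x, fun i hi => ?_, fun z => ⟨cov z, ?_⟩, ?_⟩
  · simpa [f] using hf (⟨i, hi⟩, 0)
  · rintro ⟨i, hi, h⟩
    rcases h with h | h | h | h
    · rw [h]; simpa [f] using hf (⟨i, hi⟩, 0)
    · rw [h]; simpa [f] using hf (⟨i, hi⟩, 1)
    · rw [h]; simpa [f] using hf (⟨i, hi⟩, 2)
    · rw [h]; simpa [f] using hf (⟨i, hi⟩, 3)
  · have hS : (∑ i ∈ range k, x i) = (((∑ i ∈ range k, X i : ℤ)) : ZMod (4 * k + 1)) := by
      simp [x]
    have hu : IsUnit (∑ i ∈ range k, x i) := by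
      have h2 := congrArg (fun y : ℤ => ((y : ℤ) : ZMod (4 * k + 1))) hs
      have h0 : ((4 * k + 1 : ℕ) : ZMod (4 * k + 1)) = 0 := ZMod.natCast_self _
      have h3 : (c : ZMod (4 * k + 1)) * (∑ i ∈ range k, x i) = -1 := by
        rw [hS]
        rw [Int.cast_mul] at h2
        rw [h2]
        push_cast at h0 ⊢
        rw [h0]
        ring
      refine IsUnit.of_mul_eq_one (-(c : ZMod (4 * k + 1))) ?_
      exact (mul_comm _ _).trans (by rw [neg_mul, h3, neg_neg])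
    have h4 : IsUnit (((∑ i ∈ range k, x i).val : ℕ) : ZMod (4 * k + 1)) := by
      rw [ZMod.natCast_zmod_val]
      exact hu
    exact (ZMod.isUnit_iff_coprime _ _).1 h4

/-- The zigzag `u, v, u+1, v+1, u+2, …`. -/
def zig (u v : ℤ) (i : ℕ) : ℤ := if i % 2 = 0 then u + (i / 2 : ℕ) else v + (i / 2 : ℕ)

theorem sum_zig_even (u v : ℤ) (p : ℕ) :
    ∑ i ∈ range (2 * p), zig u v i = p * (u + v) + p * (p - 1) := by
  induction p with
  | zero => simp
  | succ p ih =>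
    rw [show 2 * (p + 1) = 2 * p + 1 + 1 by ring, sum_range_succ, sum_range_succ, ih]
    have h1 : zig u v (2 * p) = u + p := by
      unfold zig
      rw [if_pos (by omega), show 2 * p / 2 = p by omega]
    have h2 : zig u v (2 * p + 1) = v + p := by
      unfold zig
      rw [if_neg (by omega), show (2 * p + 1) / 2 = p by omega]
    rw [h1, h2]
    push_cast
    ring

theorem sum_zig_odd (u v : ℤ) (p : ℕ) :
    ∑ i ∈ range (2 * p + 1), zig u v i = p * (u + v) + p * (p - 1) + (u + p) := by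
  rw [sum_range_succ, sum_zig_even]
  have h1 : zig u v (2 * p) = u + p := by
    unfold zig
    rw [if_pos (by omega), show 2 * p / 2 = p by omega]
  rw [h1]

theorem zig_add (u v : ℤ) (i : ℕ) : zig u v i + zig u v (i + 1) = u + v + i := by
  unfold zig
  split_ifs <;> omega

/-- What has to be shown for the label `r`. -/
def Good (k : ℕ) (X : ℕ → ℤ) (r : ℤ) : Prop :=
  ∃ i < k, ∃ y : ℤ, (y = X i ∨ y = X i + X ((i + 1) % k)) ∧
    ((4 * k + 1 : ℤ) ∣ y - r ∨ (4 * k + 1 : ℤ) ∣ y + r)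

theorem one {k : ℕ} {X : ℕ → ℤ} {r : ℤ} (i : ℕ) (w : ℤ) (hi : i < k)
    (h : X i - r = (4 * k + 1) * w ∨ X i + r = (4 * k + 1) * w) : Good k X r :=
  ⟨i, hi, X i, Or.inl rfl, h.imp (fun h => ⟨w, h⟩) (fun h => ⟨w, h⟩)⟩

theorem two {k : ℕ} {X : ℕ → ℤ} {r : ℤ} (i : ℕ) (w : ℤ) (hi : i + 1 < k)
    (h : X i + X (i + 1) - r = (4 * k + 1) * w ∨ X i + X (i + 1) + r = (4 * k + 1) * w) :
    Good k X r := by
  refine ⟨i, by omega, X i + X (i + 1), Or.inr ?_, h.imp (fun h => ⟨w, h⟩) (fun h => ⟨w, h⟩)⟩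
  rw [Nat.mod_eq_of_lt hi]

theorem last {k : ℕ} {X : ℕ → ℤ} {r : ℤ} (i : ℕ) (w : ℤ) (hi : i + 1 = k)
    (h : X i + X 0 - r = (4 * k + 1) * w ∨ X i + X 0 + r = (4 * k + 1) * w) :
    Good k X r := by
  refine ⟨i, by omega, X i + X 0, Or.inr ?_, h.imp (fun h => ⟨w, h⟩) (fun h => ⟨w, h⟩)⟩
  rw [hi, Nat.mod_self]

/-- The sequence for `k = 2p + 7`. -/
def Xodd (p i : ℕ) : ℤ :=
  if i < 2 * p + 1 then zig (2 * p + 9) (4 * p + 16) i
  else if i = 2 * p + 1 then 2 * p + 7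
  else if i = 2 * p + 2 then 6 * p + 24
  else if i = 2 * p + 3 then 8 * p + 26
  else if i = 2 * p + 4 then 8 * p + 28
  else if i = 2 * p + 5 then 3 * p + 11
  else 2 * p + 6

section odd
variable (p : ℕ)
theorem o0 {i j : ℕ} (h : i = 2 * j) (h' : j ≤ p) : Xodd p i = 2 * p + 9 + j := by
  rw [Xodd, if_pos (by omega), zig, if_pos (by omega)]
  omega
theorem o1 {i j : ℕ} (h : i = 2 * j + 1) (h' : j < p) : Xodd p i = 4 * p + 16 + j := by
  rw [Xodd, if_pos (by omega), zig, if_neg (by omega)]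
  omega
theorem os {i : ℕ} (h : i < 2 * p) : Xodd p i + Xodd p (i + 1) = 6 * p + 25 + i := by
  rw [Xodd, if_pos (by omega), Xodd, if_pos (by omega), zig_add]
  ring
theorem o2 : Xodd p (2 * p + 1) = 2 * p + 7 := by unfold Xodd; split_ifs <;> omega
theorem o3 : Xodd p (2 * p + 2) = 6 * p + 24 := by unfold Xodd; split_ifs <;> omega
theorem o4 : Xodd p (2 * p + 3) = 8 * p + 26 := by unfold Xodd; split_ifs <;> omega
theorem o5 : Xodd p (2 * p + 4) = 8 * p + 28 := by unfold Xodd; split_ifs <;> omega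
theorem o6 : Xodd p (2 * p + 5) = 3 * p + 11 := by unfold Xodd; split_ifs <;> omega
theorem o7 : Xodd p (2 * p + 6) = 2 * p + 6 := by unfold Xodd; split_ifs <;> omega
end odd

theorem cov_odd (p : ℕ) (r : ℤ) (h1 : 1 ≤ r) (h2 : r ≤ 2 * (2 * p + 7 : ℕ)) :
    Good (2 * p + 7) (Xodd p) r := by
  obtain ⟨s, rfl⟩ : ∃ s : ℕ, r = s := ⟨r.toNat, by omega⟩
  have hc : s = 1 ∨ s = 2 ∨ s = 3 ∨ s = 4 ∨ (5 ≤ s ∧ s ≤ 2 * p + 4) ∨ s = 2 * p + 5 ∨
      s = 2 * p + 6 ∨ s = 2 * p + 7 ∨ s = 2 * p + 8 ∨ (2 * p + 9 ≤ s ∧ s ≤ 3 * p + 9) ∨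
      s = 3 * p + 10 ∨ s = 3 * p + 11 ∨ s = 3 * p + 12 ∨ s = 3 * p + 13 ∨
      (3 * p + 14 ≤ s ∧ s ≤ 4 * p + 13) ∨ s = 4 * p + 14 := by omega
  rcases hc with h | h | h | h | h | h | h | h | h | h | h | h | h | h | h | h
  · exact one (2 * p + 4) 1 (by omega) (Or.inr (by rw [o5]; omega))
  · exact two (2 * p + 1) 1 (by omega) (Or.inl (by rw [o2, o3]; omega))
  · exact one (2 * p + 3) 1 (by omega) (Or.inr (by rw [o4]; omega))
  · exact two (2 * p + 3) 2 (by omega) (Or.inr (by rw [o4, o5]; omega))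
  · exact two (2 * p + 4 - s) 1 (by omega) (Or.inr (by rw [os p (by omega)]; omega))
  · exact one (2 * p + 2) 1 (by omega) (Or.inr (by rw [o3]; omega))
  · exact one (2 * p + 6) 0 (by omega) (Or.inl (by rw [o7]; omega))
  · exact one (2 * p + 1) 0 (by omega) (Or.inl (by rw [o2]; omega))
  · exact two (2 * p + 2) 2 (by omega) (Or.inr (by rw [o3, o4]; omega))
  · exact one (2 * (s - (2 * p + 9))) 0 (by omega) (Or.inl (by rw [o0 p rfl (by omega)]; omega))
  · exact two (2 * p + 4) 1 (by omega) (Or.inl (by rw [o5, o6]; omega))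
  · exact one (2 * p + 5) 0 (by omega) (Or.inl (by rw [o6]; omega))
  · exact two (2 * p + 5) 1 (by omega) (Or.inr (by rw [o6, o7]; omega))
  · exact two (2 * p) 1 (by omega) (Or.inr (by rw [o0 p rfl (by omega), o2]; omega))
  · exact one (2 * (4 * p + 13 - s) + 1) 1 (by omega) (Or.inr (by
      rw [o1 p rfl (by omega)]; omega))
  · exact last (2 * p + 6) 1 (by omega) (Or.inr (by
      rw [o7, o0 p (j := 0) rfl (by omega)]; omega))

theorem sum_odd (p : ℕ) : ∑ i ∈ range (2 * p + 7), Xodd p i =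
    7 * (p + 3) ^ 2 + 14 * (p + 3) + 6 := by
  rw [sum_range_succ, sum_range_succ, sum_range_succ, sum_range_succ, sum_range_succ,
    sum_range_succ, o2, o3, o4, o5, o6, o7]
  have h1 : ∑ i ∈ range (2 * p + 1), Xodd p i =
      ∑ i ∈ range (2 * p + 1), zig (2 * p + 9) (4 * p + 16) i :=
    sum_congr rfl fun i hi => by
      rw [Xodd, if_pos (mem_range.1 hi)]
  rw [h1, sum_zig_odd]
  ring

theorem odd_case (p : ℕ) : HasSequence (2 * p + 7) := by
  refine main _ (Xodd p) (cov_odd p) 64 (56 * (p + 3) + 77) ?_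
  rw [sum_odd]
  push_cast
  ring

/-- The sequence for `k = 4p + 8`. -/
def Xfour (p i : ℕ) : ℤ :=
  if i < 2 * p + 3 then zig (4 * p + 8) (8 * p + 18) i
  else if i = 2 * p + 3 then 1
  else if i = 2 * p + 4 then 2 * p + 3
  else if i = 2 * p + 5 then 8 * p + 17
  else zig (10 * p + 21) (6 * p + 14) (i - (2 * p + 6))

section four
variable (p : ℕ)
theorem f0 {i j : ℕ} (h : i = 2 * j) (h' : j ≤ p + 1) : Xfour p i = 4 * p + 8 + j := by
  rw [Xfour, if_pos (by omega), zig, if_pos (by omega)]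
  omega
theorem f1 {i j : ℕ} (h : i = 2 * j + 1) (h' : j ≤ p) : Xfour p i = 8 * p + 18 + j := by
  rw [Xfour, if_pos (by omega), zig, if_neg (by omega)]
  omega
theorem fs {i : ℕ} (h : i < 2 * p + 2) : Xfour p i + Xfour p (i + 1) = 12 * p + 26 + i := by
  rw [Xfour, if_pos (by omega), Xfour, if_pos (by omega), zig_add]
  ring
theorem f2 : Xfour p (2 * p + 3) = 1 := by unfold Xfour; split_ifs <;> omega
theorem f3 : Xfour p (2 * p + 4) = 2 * p + 3 := by unfold Xfour; split_ifs <;> omega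
theorem f4 : Xfour p (2 * p + 5) = 8 * p + 17 := by unfold Xfour; split_ifs <;> omega
theorem f5 (s : ℕ) : Xfour p (2 * p + 6 + s) = zig (10 * p + 21) (6 * p + 14) s := by
  rw [Xfour, if_neg (by omega), if_neg (by omega), if_neg (by omega), if_neg (by omega),
    show 2 * p + 6 + s - (2 * p + 6) = s by omega]
theorem f6 {i j : ℕ} (h : i = 2 * p + 6 + 2 * j) : Xfour p i = 10 * p + 21 + j := by
  rw [h, f5, zig, if_pos (by omega)]
  omega
theorem f7 {i j : ℕ} (h : i = 2 * p + 6 + (2 * j + 1)) : Xfour p i = 6 * p + 14 + j := by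
  rw [h, f5, zig, if_neg (by omega)]
  omega
theorem ft (s : ℕ) : Xfour p (2 * p + 6 + s) + Xfour p (2 * p + 6 + s + 1) =
    16 * p + 35 + s := by
  rw [show 2 * p + 6 + s + 1 = 2 * p + 6 + (s + 1) by ring, f5, f5, zig_add]
  ring
end four

theorem cov_four (p : ℕ) (r : ℤ) (h1 : 1 ≤ r) (h2 : r ≤ 2 * (4 * p + 8 : ℕ)) :
    Good (4 * p + 8) (Xfour p) r := by
  obtain ⟨s, rfl⟩ : ∃ s : ℕ, r = s := ⟨r.toNat, by omega⟩
  have hc : s = 1 ∨ (2 ≤ s ∧ s ≤ 2 * p + 2) ∨ s = 2 * p + 3 ∨ s = 2 * p + 4 ∨ s = 2 * p + 5 ∨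
      (2 * p + 6 ≤ s ∧ s ≤ 4 * p + 7) ∨ (4 * p + 8 ≤ s ∧ s ≤ 5 * p + 9) ∨ s = 5 * p + 10 ∨
      s = 5 * p + 11 ∨ (5 * p + 12 ≤ s ∧ s ≤ 6 * p + 12) ∨ s = 6 * p + 13 ∨
      (6 * p + 14 ≤ s ∧ s ≤ 7 * p + 14) ∨ (7 * p + 15 ≤ s ∧ s ≤ 8 * p + 15) ∨
      s = 8 * p + 16 := by omega
  rcases hc with h | h | h | h | h | h | h | h | h | h | h | h | h | h
  · exact one (2 * p + 3) 0 (by omega) (Or.inl (by rw [f2]; omega))
  · exact two (2 * p + 6 + (s - 2)) 1 (by omega) (Or.inl (by rw [ft]; omega))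
  · exact one (2 * p + 4) 0 (by omega) (Or.inl (by rw [f3]; omega))
  · exact two (2 * p + 3) 0 (by omega) (Or.inl (by rw [f2, f3]; omega))
  · exact two (2 * p + 5) 1 (by omega) (Or.inl (by rw [f4, f6 p (j := 0) rfl]; omega))
  · exact two (4 * p + 7 - s) 1 (by omega) (Or.inr (by rw [fs p (by omega)]; omega))
  · exact one (2 * (s - (4 * p + 8))) 0 (by omega) (Or.inl (by rw [f0 p rfl (by omega)]; omega))
  · exact two (2 * p + 2) 0 (by omega) (Or.inl (by
      rw [f0 p (j := p + 1) (by ring) le_rfl, f2]; omega))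
  · exact last (4 * p + 7) 1 (by omega) (Or.inr (by
      rw [f7 p (j := p) (by ring), f0 p (j := 0) rfl (by omega)]; omega))
  · exact one (2 * p + 6 + 2 * (6 * p + 12 - s)) 1 (by omega) (Or.inr (by
      rw [f6 p rfl]; omega))
  · exact two (2 * p + 4) 1 (by omega) (Or.inr (by rw [f3, f4]; omega))
  · exact one (2 * p + 6 + (2 * (s - (6 * p + 14)) + 1)) 0 (by omega) (Or.inl (by
      rw [f7 p rfl]; omega))
  · exact one (2 * (8 * p + 15 - s) + 1) 1 (by omega) (Or.inr (by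
      rw [f1 p rfl (by omega)]; omega))
  · exact one (2 * p + 5) 1 (by omega) (Or.inr (by rw [f4]; omega))

theorem sum_four (p : ℕ) : ∑ i ∈ range (4 * p + 8), Xfour p i =
    30 * (p + 2) ^ 2 - 14 * (p + 2) - 1 := by
  rw [show 4 * p + 8 = (2 * p + 6) + 2 * (p + 1) by ring, sum_range_add, sum_range_succ,
    sum_range_succ, sum_range_succ, f2, f3, f4]
  have h1 : ∑ i ∈ range (2 * p + 3), Xfour p i =
      ∑ i ∈ range (2 * (p + 1) + 1), zig (4 * p + 8) (8 * p + 18) i :=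
    sum_congr rfl fun i hi => by
      rw [Xfour, if_pos (by have := mem_range.1 hi; omega)]
  have h2 : ∑ i ∈ range (2 * (p + 1)), Xfour p (2 * p + 6 + i) =
      ∑ i ∈ range (2 * (p + 1)), zig (10 * p + 21) (6 * p + 14) i :=
    sum_congr rfl fun i _ => f5 p i
  rw [h1, h2, sum_zig_odd, sum_zig_even]
  push_cast
  ring

theorem four_case (p : ℕ) : HasSequence (4 * p + 8) := by
  refine main _ (Xfour p) (cov_four p) 128 (240 * (p + 2) - 127) ?_
  rw [sum_four]
  push_cast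
  ring

/-- The sequence for `k = 4p + 6`. -/
def Xtwo (p i : ℕ) : ℤ :=
  if i < 2 * p + 2 then zig (4 * p + 7) (8 * p + 13) i
  else if i = 2 * p + 2 then 1
  else if i = 2 * p + 3 then 14 * p + 21
  else if i = 2 * p + 4 then 4 * p + 6
  else zig (6 * p + 10) (10 * p + 17) (i - (2 * p + 5))

section two
variable (p : ℕ)
theorem g0 {i j : ℕ} (h : i = 2 * j) (h' : j ≤ p) : Xtwo p i = 4 * p + 7 + j := by
  rw [Xtwo, if_pos (by omega), zig, if_pos (by omega)]
  omega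
theorem g1 {i j : ℕ} (h : i = 2 * j + 1) (h' : j ≤ p) : Xtwo p i = 8 * p + 13 + j := by
  rw [Xtwo, if_pos (by omega), zig, if_neg (by omega)]
  omega
theorem gs {i : ℕ} (h : i < 2 * p + 1) : Xtwo p i + Xtwo p (i + 1) = 12 * p + 20 + i := by
  rw [Xtwo, if_pos (by omega), Xtwo, if_pos (by omega), zig_add]
  ring
theorem g2 : Xtwo p (2 * p + 2) = 1 := by unfold Xtwo; split_ifs <;> omega
theorem g3 : Xtwo p (2 * p + 3) = 14 * p + 21 := by unfold Xtwo; split_ifs <;> omega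
theorem g4 : Xtwo p (2 * p + 4) = 4 * p + 6 := by unfold Xtwo; split_ifs <;> omega
theorem g5 (s : ℕ) : Xtwo p (2 * p + 5 + s) = zig (6 * p + 10) (10 * p + 17) s := by
  rw [Xtwo, if_neg (by omega), if_neg (by omega), if_neg (by omega), if_neg (by omega),
    show 2 * p + 5 + s - (2 * p + 5) = s by omega]
theorem g6 {i j : ℕ} (h : i = 2 * p + 5 + 2 * j) : Xtwo p i = 6 * p + 10 + j := by
  rw [h, g5, zig, if_pos (by omega)]
  omega
theorem g7 {i j : ℕ} (h : i = 2 * p + 5 + (2 * j + 1)) : Xtwo p i = 10 * p + 17 + j := by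
  rw [h, g5, zig, if_neg (by omega)]
  omega
theorem gt (s : ℕ) : Xtwo p (2 * p + 5 + s) + Xtwo p (2 * p + 5 + s + 1) =
    16 * p + 27 + s := by
  rw [show 2 * p + 5 + s + 1 = 2 * p + 5 + (s + 1) by ring, g5, g5, zig_add]
  ring
end two

theorem cov_two (p : ℕ) (r : ℤ) (h1 : 1 ≤ r) (h2 : r ≤ 2 * (4 * p + 6 : ℕ)) :
    Good (4 * p + 6) (Xtwo p) r := by
  obtain ⟨s, rfl⟩ : ∃ s : ℕ, r = s := ⟨r.toNat, by omega⟩
  have hc : s = 1 ∨ (2 ≤ s ∧ s ≤ 2 * p + 1) ∨ s = 2 * p + 2 ∨ s = 2 * p + 3 ∨ s = 2 * p + 4 ∨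
      (2 * p + 5 ≤ s ∧ s ≤ 4 * p + 5) ∨ s = 4 * p + 6 ∨ (4 * p + 7 ≤ s ∧ s ≤ 5 * p + 7) ∨
      s = 5 * p + 8 ∨ (5 * p + 9 ≤ s ∧ s ≤ 6 * p + 8) ∨ s = 6 * p + 9 ∨
      (6 * p + 10 ≤ s ∧ s ≤ 7 * p + 10) ∨ s = 7 * p + 11 ∨
      (7 * p + 12 ≤ s ∧ s ≤ 8 * p + 12) := by omega
  rcases hc with h | h | h | h | h | h | h | h | h | h | h | h | h | h
  · exact one (2 * p + 2) 0 (by omega) (Or.inl (by rw [g2]; omega))
  · exact two (2 * p + 5 + (s - 2)) 1 (by omega) (Or.inl (by rw [gt]; omega))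
  · exact two (2 * p + 3) 1 (by omega) (Or.inl (by rw [g3, g4]; omega))
  · exact two (2 * p + 2) 1 (by omega) (Or.inr (by rw [g2, g3]; omega))
  · exact one (2 * p + 3) 1 (by omega) (Or.inr (by rw [g3]; omega))
  · exact two (4 * p + 5 - s) 1 (by omega) (Or.inr (by rw [gs p (by omega)]; omega))
  · exact one (2 * p + 4) 0 (by omega) (Or.inl (by rw [g4]; omega))
  · exact one (2 * (s - (4 * p + 7))) 0 (by omega) (Or.inl (by rw [g0 p rfl (by omega)]; omega))
  · exact last (4 * p + 5) 1 (by omega) (Or.inr (by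
      rw [g6 p (j := p) (by ring), g0 p (j := 0) rfl (by omega)]; omega))
  · exact one (2 * p + 5 + (2 * (6 * p + 8 - s) + 1)) 1 (by omega) (Or.inr (by
      rw [g7 p rfl]; omega))
  · exact two (2 * p + 4) 1 (by omega) (Or.inr (by rw [g4, g6 p (j := 0) rfl]; omega))
  · exact one (2 * p + 5 + 2 * (s - (6 * p + 10))) 0 (by omega) (Or.inl (by
      rw [g6 p rfl]; omega))
  · exact two (2 * p + 1) 1 (by omega) (Or.inr (by
      rw [g1 p (j := p) rfl le_rfl, g2]; omega))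
  · exact one (2 * (8 * p + 12 - s) + 1) 1 (by omega) (Or.inr (by
      rw [g1 p rfl (by omega)]; omega))

theorem sum_two (p : ℕ) : ∑ i ∈ range (4 * p + 6), Xtwo p i =
    30 * (p + 1) ^ 2 + 24 * (p + 1) + 4 := by
  rw [show 4 * p + 6 = (2 * p + 5) + (2 * p + 1) by ring, sum_range_add, sum_range_succ,
    sum_range_succ, sum_range_succ, g2, g3, g4]
  have h1 : ∑ i ∈ range (2 * p + 2), Xtwo p i =
      ∑ i ∈ range (2 * (p + 1)), zig (4 * p + 7) (8 * p + 13) i :=
    sum_congr rfl fun i hi => by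
      rw [Xtwo, if_pos (by have := mem_range.1 hi; omega)]
  have h2 : ∑ i ∈ range (2 * p + 1), Xtwo p (2 * p + 5 + i) =
      ∑ i ∈ range (2 * p + 1), zig (6 * p + 10) (10 * p + 17) i :=
    sum_congr rfl fun i _ => g5 p i
  rw [h1, h2, sum_zig_odd, sum_zig_even]
  push_cast
  ring

theorem two_case (p : ℕ) : HasSequence (4 * p + 6) := by
  refine main _ (Xtwo p) (cov_two p) 128 (240 * (p + 1) + 57) ?_
  rw [sum_two]
  push_cast
  ring

theorem case_three : HasSequence 3 := by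
  refine main _ (fun i => ([1, 2, 4] : List ℤ).getD i 0) ?_ (-2) (-1) (by decide)
  intro r h1 h2
  have : r = 1 ∨ r = 2 ∨ r = 3 ∨ r = 4 ∨ r = 5 ∨ r = 6 := by
    push_cast at h2
    omega
  rcases this with rfl | rfl | rfl | rfl | rfl | rfl
  · exact one 0 0 (by decide) (Or.inl (by decide))
  · exact one 1 0 (by decide) (Or.inl (by decide))
  · exact two 0 0 (by decide) (Or.inl (by decide))
  · exact one 2 0 (by decide) (Or.inl (by decide))
  · exact last 2 0 (by decide) (Or.inl (by decide))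
  · exact two 1 0 (by decide) (Or.inl (by decide))

theorem case_four : HasSequence 4 := by
  refine main _ (fun i => ([1, 2, 6, 4] : List ℤ).getD i 0) ?_ 13 10 (by decide)
  intro r h1 h2
  have : r = 1 ∨ r = 2 ∨ r = 3 ∨ r = 4 ∨ r = 5 ∨ r = 6 ∨ r = 7 ∨ r = 8 := by
    push_cast at h2
    omega
  rcases this with rfl | rfl | rfl | rfl | rfl | rfl | rfl | rfl
  · exact one 0 0 (by decide) (Or.inl (by decide))
  · exact one 1 0 (by decide) (Or.inl (by decide))
  · exact two 0 0 (by decide) (Or.inl (by decide))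
  · exact one 3 0 (by decide) (Or.inl (by decide))
  · exact last 3 0 (by decide) (Or.inl (by decide))
  · exact one 2 0 (by decide) (Or.inl (by decide))
  · exact two 2 1 (by decide) (Or.inr (by decide))
  · exact two 1 0 (by decide) (Or.inl (by decide))

theorem case_five : HasSequence 5 := by
  refine main _ (fun i => ([1, 2, 7, 6, 4] : List ℤ).getD i 0) ?_ 1 1 (by decide)
  intro r h1 h2
  have : r = 1 ∨ r = 2 ∨ r = 3 ∨ r = 4 ∨ r = 5 ∨ r = 6 ∨ r = 7 ∨ r = 8 ∨ r = 9 ∨ r = 10 := by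
    push_cast at h2
    omega
  rcases this with rfl | rfl | rfl | rfl | rfl | rfl | rfl | rfl | rfl | rfl
  · exact one 0 0 (by decide) (Or.inl (by decide))
  · exact one 1 0 (by decide) (Or.inl (by decide))
  · exact two 0 0 (by decide) (Or.inl (by decide))
  · exact one 4 0 (by decide) (Or.inl (by decide))
  · exact last 4 0 (by decide) (Or.inl (by decide))
  · exact one 3 0 (by decide) (Or.inl (by decide))
  · exact one 2 0 (by decide) (Or.inl (by decide))
  · exact two 2 1 (by decide) (Or.inr (by decide))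
  · exact two 1 0 (by decide) (Or.inl (by decide))
  · exact two 3 0 (by decide) (Or.inl (by decide))

/-- **Answer to Q1: yes.** For every `k > 2` there is a sequence as required. -/
theorem result : ∀ k : ℕ, 2 < k → HasSequence k := by
  intro k hk
  rcases Nat.lt_or_ge k 6 with h | h
  · interval_cases k
    · exact case_three
    · exact case_four
    · exact case_five
  · rcases Nat.even_or_odd k with ⟨m, hm⟩ | ⟨m, hm⟩
    · rcases Nat.even_or_odd m with ⟨n, hn⟩ | ⟨n, hn⟩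
      · obtain ⟨p, rfl⟩ : ∃ p, k = 4 * p + 8 := ⟨n - 2, by omega⟩
        exact four_case p
      · obtain ⟨p, rfl⟩ : ∃ p, k = 4 * p + 6 := ⟨n - 1, by omega⟩
        exact two_case p
    · obtain ⟨p, rfl⟩ : ∃ p, k = 2 * p + 7 := ⟨m - 3, by omega⟩
      exact odd_case p

end Pool.Agent.Results.MP_a9ea17_co.AllLengths
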